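import Pool.Agent.H610R2.AF.T_COM
import Pool.Agent.H610R2.AF.T_ISL

set_option autoImplicit false

namespace Pool.Agent.Y936.AF4

open H610AF

/-- parameters attached to the factorisation `x⁴+x+1 = (x²-tx+B)(x²+tx+b)` -/
structure Par where
  B : ℝ
  b : ℝ
  t : ℝ
  y : ℝ
  u : ℝ
  ρ : ℝ
  hBb : B * b = 1
  ht : t ^ 2 = B + b
  h1 : t * (B - b) = 1
  hy : y ^ 2 = B - t ^ 2 / 4
  hu : u ^ 2 = b - t ^ 2 / 4
  hy0 : y ≠ 0
  hu0 : u ≠ 0
  hρ : ρ ^ 2 = B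
  hρ1 : 1 < ρ
  hB2 : B ^ 2 ≤ 2

/-- weights of the block -/
noncomputable def w0 : Fin 4 → ℝ := ![-1, -1, 1, 1]

/-- multiplication by the root on the integral basis -/
def Cm : (Fin 4 → ℝ) →ₗ[ℝ] (Fin 4 → ℝ) where
  toFun v := ![-v 3, v 0 - v 3, v 1, v 2]
  map_add' u v := by funext i; fin_cases i <;> simp <;> ring
  map_smul' c v := by funext i; fin_cases i <;> simp <;> ring

/-- the embedding by the two complex roots -/
noncomputable def ph (P : Par) : (Fin 4 → ℝ) →ₗ[ℝ] (Fin 4 → ℝ) where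
  toFun v := ![(v 0 - P.B * v 2 - P.t * P.B * v 3) + (v 1 + P.t * v 2 + P.b * v 3) * (P.t / 2),
    (v 1 + P.t * v 2 + P.b * v 3) * P.y,
    (v 0 - P.b * v 2 + P.t * P.b * v 3) - (v 1 - P.t * v 2 + P.B * v 3) * (P.t / 2),
    (v 1 - P.t * v 2 + P.B * v 3) * P.u]
  map_add' u v := by funext i; fin_cases i <;> simp <;> ring
  map_smul' c v := by funext i; fin_cases i <;> simp <;> ring

/-- two rotations -/
noncomputable def Rm (P : Par) : (Fin 4 → ℝ) →ₗ[ℝ] (Fin 4 → ℝ) where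
  toFun X := ![P.t / (2 * P.ρ) * X 0 - P.y / P.ρ * X 1, P.y / P.ρ * X 0 + P.t / (2 * P.ρ) * X 1,
    -(P.t * P.ρ / 2) * X 2 - P.u * P.ρ * X 3, P.u * P.ρ * X 2 + -(P.t * P.ρ / 2) * X 3]
  map_add' u v := by funext i; fin_cases i <;> simp <;> ring
  map_smul' c v := by funext i; fin_cases i <;> simp <;> ring

theorem Cm_inj (v : Fin 4 → ℝ) (h : Cm v = 0) : v = 0 := by
  have h0 := congrFun h 0
  have h1 := congrFun h 1
  have h2 := congrFun h 2
  have h3 := congrFun h 3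
  simp [Cm] at h0 h1 h2 h3
  funext i
  fin_cases i
  · show v 0 = 0
    linarith
  · exact h2
  · exact h3
  · exact h0

theorem ph_inj (P : Par) (v : Fin 4 → ℝ) (h : ph P v = 0) : v = 0 := by
  have h0 := congrFun h 0
  have h1 := congrFun h 1
  have h2 := congrFun h 2
  have h3 := congrFun h 3
  simp [ph, P.hy0, P.hu0] at h0 h1 h2 h3
  rw [h1] at h0
  rw [h3] at h2
  have e2 : v 2 * (1 + 2 * P.t ^ 6) = 0 := by
    have hh := P.h1
    have hB := P.ht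
    -- from h1,h3: 2 t v2 = (B - b) v3 ; from h0,h2: (B-b) v2 + t (B+b) v3 = 0
    have k1 : 2 * P.t * v 2 = (P.B - P.b) * v 3 := by linear_combination h1 - h3
    have k2 : (P.B - P.b) * v 2 + P.t * (P.B + P.b) * v 3 = 0 := by linear_combination h2 - h0
    have k3 : 2 * P.t ^ 2 * v 2 = v 3 := by linear_combination P.t * k1 + v 3 * hh
    have k4 : v 2 + P.t ^ 4 * v 3 = 0 := by
      linear_combination P.t * k2 - v 2 * hh + P.t ^ 2 * v 3 * hB
    linear_combination k4 + P.t ^ 4 * k3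
  have e2' : v 2 = 0 := by
    rcases mul_eq_zero.1 e2 with h | h
    · exact h
    · exfalso
      have : 0 ≤ P.t ^ 6 := by positivity
      linarith
  have e3 : v 3 = 0 := by
    have k1 : 2 * P.t * v 2 = (P.B - P.b) * v 3 := by linear_combination h1 - h3
    have k3 : 2 * P.t ^ 2 * v 2 = v 3 := by linear_combination P.t * k1 + v 3 * P.h1
    rw [e2'] at k3
    linarith
  rw [e2', e3] at h0 h1
  funext i
  fin_cases i
  · show v 0 = 0
    linarith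
  · show v 1 = 0
    linarith
  · exact e2'
  · exact e3

theorem rot_sq1 (P : Par) : (P.t / (2 * P.ρ)) ^ 2 + (P.y / P.ρ) ^ 2 = 1 := by
  have h := P.hρ
  have h2 := P.hy
  have h3 : P.ρ ≠ 0 := by have := P.hρ1; positivity
  field_simp
  linear_combination h2 * 4 - 4 * h

theorem rot_sq2 (P : Par) : (P.t * P.ρ / 2) ^ 2 + (P.u * P.ρ) ^ 2 = 1 := by
  have h := P.hρ
  have h2 := P.hu
  have h3 := P.hBb
  linear_combination P.ρ ^ 2 * h2 + P.b * h + h3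

theorem ph_C (P : Par) (v : Fin 4 → ℝ) (i : Fin 4) :
    ph P (Cm v) i = (if i = 0 ∨ i = 1 then P.ρ else P.ρ⁻¹) * Rm P (ph P v) i := by
  have h3 : P.ρ ≠ 0 := by have := P.hρ1; positivity
  have e1 := P.hBb
  have e2 := P.ht
  have e3 := P.h1
  have e4 := P.hy
  have e5 := P.hu
  have e6 := P.hρ
  have r1 : ∀ α β X Y : ℝ, P.ρ * (α / P.ρ * X + β / P.ρ * Y) = α * X + β * Y := by
    intro α β X Y
    field_simp
  have r2 : ∀ α β X Y : ℝ, P.ρ⁻¹ * (α * P.ρ * X + β * P.ρ * Y) = α * X + β * Y := by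
    intro α β X Y
    field_simp
  fin_cases i
  · show (-v 3 - P.B * v 1 - P.t * P.B * v 2) + (v 0 - v 3 + P.t * v 1 + P.b * v 2) * (P.t / 2) =
      P.ρ * (P.t / (2 * P.ρ) * ph P v 0 - P.y / P.ρ * ph P v 1)
    have r := r1 (P.t / 2) (-P.y) (ph P v 0) (ph P v 1)
    have r' : P.ρ * (P.t / (2 * P.ρ) * ph P v 0 - P.y / P.ρ * ph P v 1) =
        P.t / 2 * ph P v 0 + -P.y * ph P v 1 := by
      rw [← r]; ring
    rw [r']
    show (-v 3 - P.B * v 1 - P.t * P.B * v 2) + (v 0 - v 3 + P.t * v 1 + P.b * v 2) * (P.t / 2) =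
      P.t / 2 * ((v 0 - P.B * v 2 - P.t * P.B * v 3) +
        (v 1 + P.t * v 2 + P.b * v 3) * (P.t / 2)) + -P.y * ((v 1 + P.t * v 2 + P.b * v 3) * P.y)
    linear_combination (v 1 + P.t * v 2 + P.b * v 3) * e4 - (P.t / 2) * v 2 * e2 + v 3 * e1 +
      (P.t / 2) * v 3 * e3
  · show (v 0 - v 3 + P.t * v 1 + P.b * v 2) * P.y =
      P.ρ * (P.y / P.ρ * ph P v 0 + P.t / (2 * P.ρ) * ph P v 1)
    have r := r1 P.y (P.t / 2) (ph P v 0) (ph P v 1)
    have r' : P.ρ * (P.y / P.ρ * ph P v 0 + P.t / (2 * P.ρ) * ph P v 1) =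
        P.y * ph P v 0 + P.t / 2 * ph P v 1 := by
      rw [← r]; ring
    rw [r']
    show (v 0 - v 3 + P.t * v 1 + P.b * v 2) * P.y =
      P.y * ((v 0 - P.B * v 2 - P.t * P.B * v 3) +
        (v 1 + P.t * v 2 + P.b * v 3) * (P.t / 2)) + P.t / 2 * ((v 1 + P.t * v 2 + P.b * v 3) * P.y)
    linear_combination -P.y * v 2 * e2 + P.y * v 3 * e3
  · show (-v 3 - P.b * v 1 + P.t * P.b * v 2) - (v 0 - v 3 - P.t * v 1 + P.B * v 2) * (P.t / 2) =
      P.ρ⁻¹ * (-(P.t * P.ρ / 2) * ph P v 2 - P.u * P.ρ * ph P v 3)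
    have r := r2 (-(P.t / 2)) (-P.u) (ph P v 2) (ph P v 3)
    have r' : P.ρ⁻¹ * (-(P.t * P.ρ / 2) * ph P v 2 - P.u * P.ρ * ph P v 3) =
        -(P.t / 2) * ph P v 2 + -P.u * ph P v 3 := by
      rw [← r]; ring
    rw [r']
    show (-v 3 - P.b * v 1 + P.t * P.b * v 2) - (v 0 - v 3 - P.t * v 1 + P.B * v 2) * (P.t / 2) =
      -(P.t / 2) * ((v 0 - P.b * v 2 + P.t * P.b * v 3) -
        (v 1 - P.t * v 2 + P.B * v 3) * (P.t / 2)) + -P.u * ((v 1 - P.t * v 2 + P.B * v 3) * P.u)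
    linear_combination (v 1 - P.t * v 2 + P.B * v 3) * e5 + (P.t / 2) * v 2 * e2 + v 3 * e1 -
      (P.t / 2) * v 3 * e3
  · show (v 0 - v 3 - P.t * v 1 + P.B * v 2) * P.u =
      P.ρ⁻¹ * (P.u * P.ρ * ph P v 2 + -(P.t * P.ρ / 2) * ph P v 3)
    have r := r2 P.u (-(P.t / 2)) (ph P v 2) (ph P v 3)
    have r' : P.ρ⁻¹ * (P.u * P.ρ * ph P v 2 + -(P.t * P.ρ / 2) * ph P v 3) =
        P.u * ph P v 2 + -(P.t / 2) * ph P v 3 := by
      rw [← r]; ring
    rw [r']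
    show (v 0 - v 3 - P.t * v 1 + P.B * v 2) * P.u =
      P.u * ((v 0 - P.b * v 2 + P.t * P.b * v 3) -
        (v 1 - P.t * v 2 + P.B * v 3) * (P.t / 2)) +
        -(P.t / 2) * ((v 1 - P.t * v 2 + P.B * v 3) * P.u)
    linear_combination -P.u * v 2 * e2 + P.u * v 3 * e3

theorem Rm_iso (P : Par) (z : ℝ) (U V : Fin 4 → ℝ) :
    ∑ i, Real.exp (2 * w0 i * z) * (Rm P U i * Rm P V i) =
      ∑ i, Real.exp (2 * w0 i * z) * (U i * V i) := by
  have h1 := rot_sq1 P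
  have h2 := rot_sq2 P
  rw [Fin.sum_univ_four, Fin.sum_univ_four]
  simp only [Rm, w0, LinearMap.coe_mk, AddHom.coe_mk, Matrix.cons_val_zero, Matrix.cons_val_one,
    Matrix.cons_val]
  linear_combination Real.exp (2 * (-1) * z) * (U 0 * V 0 + U 1 * V 1) * h1 +
    Real.exp (2 * 1 * z) * (U 2 * V 2 + U 3 * V 3) * h2

end Pool.Agent.Y936.AF4
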