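import Pool.Agent.Y936.AF4.Lat

set_option autoImplicit false

namespace Pool.Agent.Y936.AF4

open H610AF

/-- integral version of the monodromy -/
def Az (K r : ℕ) (v : Ix K r → ℤ) : Ix K r → ℤ :=
  Sum.elim (fun p => if p.1 = 0 then
      ![-v (Sum.inl (p.1 - 1, 3)), v (Sum.inl (p.1 - 1, 0)) - v (Sum.inl (p.1 - 1, 3)),
        v (Sum.inl (p.1 - 1, 1)), v (Sum.inl (p.1 - 1, 2))] p.2
    else v (Sum.inl (p.1 - 1, p.2))) (fun i => v (Sum.inr i))

/-- coercion of integral vectors -/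
def cs (K r : ℕ) (v : Ix K r → ℤ) : Ix K r → ℝ := fun i => (v i : ℝ)

theorem Az_cast (K r : ℕ) (v : Ix K r → ℤ) : Am K r (cs K r v) = cs K r (Az K r v) := by
  funext x
  rcases x with ⟨j, i⟩ | i
  · show ((if j = 0 then Cm else LinearMap.id) (blk K r (j - 1) (cs K r v))) i =
      (((if j = 0 then
      ![-v (Sum.inl (j - 1, 3)), v (Sum.inl (j - 1, 0)) - v (Sum.inl (j - 1, 3)),
        v (Sum.inl (j - 1, 1)), v (Sum.inl (j - 1, 2))] i
      else v (Sum.inl (j - 1, i)) : ℤ)) : ℝ)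
    by_cases hj : j = 0
    · rw [if_pos hj, if_pos hj]
      fin_cases i
      · show -((v (Sum.inl (j - 1, 3)) : ℤ) : ℝ) = ((-v (Sum.inl (j - 1, 3)) : ℤ) : ℝ)
        push_cast; rfl
      · show ((v (Sum.inl (j - 1, 0)) : ℤ) : ℝ) - ((v (Sum.inl (j - 1, 3)) : ℤ) : ℝ) =
          ((v (Sum.inl (j - 1, 0)) - v (Sum.inl (j - 1, 3)) : ℤ) : ℝ)
        push_cast; rfl
      · rfl
      · rfl
    · rw [if_neg hj, if_neg hj]
      rfl
  · rfl

theorem Az_surj (K r : ℕ) (v : Ix K r → ℤ) : ∃ u, Az K r u = v := by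
  refine ⟨Sum.elim (fun p => if p.1 + 1 = 0 then
      ![v (Sum.inl (0, 1)) - v (Sum.inl (0, 0)), v (Sum.inl (0, 2)), v (Sum.inl (0, 3)),
        -v (Sum.inl (0, 0))] p.2
    else v (Sum.inl (p.1 + 1, p.2))) (fun i => v (Sum.inr i)), ?_⟩
  funext x
  rcases x with ⟨j, i⟩ | i
  · by_cases hj : j = 0
    · subst hj
      have h : (0 - 1 + 1 : Fin (K + 1)) = 0 := sub_add_cancel 0 1
      fin_cases i <;> simp [Az]
    · simp [Az, hj]
  · rfl

/-- the lattice -/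
noncomputable def lat (P : Par) (K r : ℕ) (s : ℝ) : (Ix K r → ℤ) →+ (Ix K r → ℝ) where
  toFun v := s • Ph P K r (cs K r v)
  map_zero' := by
    have : cs K r 0 = 0 := by funext i; simp [cs]
    rw [this, map_zero, smul_zero]
  map_add' u v := by
    have : cs K r (u + v) = cs K r u + cs K r v := by funext i; simp [cs]
    rw [this, map_add, smul_add]

/-- the expanding part -/
noncomputable def Pc (K r : ℕ) (x : Ix K r → ℝ) : Fin (K + 1) → ℂ :=
  fun j => ⟨x (Sum.inl (j, 0)), x (Sum.inl (j, 1))⟩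

theorem Pc_sub (K r : ℕ) (x y : Ix K r → ℝ) : Pc K r (x - y) = Pc K r x - Pc K r y := by
  funext j
  apply Complex.ext <;> simp [Pc]

theorem Rm_norm (P : Par) (X : Fin 4 → ℝ) :
    (Rm P X 0) ^ 2 + (Rm P X 1) ^ 2 = X 0 ^ 2 + X 1 ^ 2 := by
  have h := rot_sq1 P
  show (P.t / (2 * P.ρ) * X 0 - P.y / P.ρ * X 1) ^ 2 +
    (P.y / P.ρ * X 0 + P.t / (2 * P.ρ) * X 1) ^ 2 = X 0 ^ 2 + X 1 ^ 2
  linear_combination (X 0 ^ 2 + X 1 ^ 2) * h

theorem Pc_Lm (P : Par) (K r : ℕ) (x : Ix K r → ℝ) (j : Fin (K + 1)) :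
    ‖Pc K r (Lm P K r x) j‖ = Real.exp (a4 P K) * ‖Pc K r x (j - 1)‖ := by
  have hE0 : E (a4 P K) 0 = Real.exp (a4 P K) := by simp [E, w0]
  have hE1 : E (a4 P K) 1 = Real.exp (a4 P K) := by simp [E, w0]
  have hsq : ‖Pc K r (Lm P K r x) j‖ ^ 2 = (Real.exp (a4 P K) * ‖Pc K r x (j - 1)‖) ^ 2 := by
    rw [mul_pow, Complex.sq_norm, Complex.sq_norm, Pc, Pc, Complex.normSq_mk, Complex.normSq_mk]
    have e0 : Lm P K r x (Sum.inl (j, 0)) = Real.exp (a4 P K) *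
        ((if j = 0 then Rm P else LinearMap.id) (blk K r (j - 1) x)) 0 := by
      rw [← hE0]; rfl
    have e1 : Lm P K r x (Sum.inl (j, 1)) = Real.exp (a4 P K) *
        ((if j = 0 then Rm P else LinearMap.id) (blk K r (j - 1) x)) 1 := by
      rw [← hE1]; rfl
    rw [e0, e1]
    by_cases hj : j = 0
    · rw [if_pos hj]
      have h := Rm_norm P (blk K r (j - 1) x)
      have h0 : blk K r (j - 1) x 0 = x (Sum.inl (j - 1, 0)) := rfl
      have h1 : blk K r (j - 1) x 1 = x (Sum.inl (j - 1, 1)) := rfl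
      rw [h0, h1] at h
      linear_combination (Real.exp (a4 P K)) ^ 2 * h
    · rw [if_neg hj]
      show Real.exp (a4 P K) * x (Sum.inl (j - 1, 0)) * (Real.exp (a4 P K) *
        x (Sum.inl (j - 1, 0))) + Real.exp (a4 P K) * x (Sum.inl (j - 1, 1)) *
        (Real.exp (a4 P K) * x (Sum.inl (j - 1, 1))) = _
      ring
  exact (sq_eq_sq₀ (norm_nonneg _) (by positivity)).1 hsq

theorem Pc_le (P : Par) (K r : ℕ) (x : Ix K r → ℝ) :
    Real.exp (a4 P K) * ‖Pc K r x‖ ≤ ‖Pc K r (Lm P K r x)‖ := by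
  have hpos := Real.exp_pos (a4 P K)
  rw [← le_div_iff₀' hpos]
  rw [pi_norm_le_iff_of_nonneg (by positivity)]
  intro j
  rw [le_div_iff₀' hpos]
  have h := Pc_Lm P K r x (j + 1)
  rw [add_sub_cancel_right] at h
  rw [← h]
  exact norm_le_pi_norm _ _

theorem Pc_pow (P : Par) (K r : ℕ) (n : ℕ) : ∀ x : Ix K r → ℝ,
    Real.exp (a4 P K) ^ n * ‖Pc K r x‖ ≤ ‖Pc K r ((Le P K r ^ n) x)‖ := by
  induction n with
  | zero => intro x; simp
  | succ n ih =>
    intro x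
    have h1 := ih (Le P K r x)
    have h2 := Pc_le P K r x
    have h3 : (Le P K r ^ (n + 1)) x = (Le P K r ^ n) (Le P K r x) := by
      rw [pow_succ]; rfl
    rw [h3]
    refine le_trans ?_ h1
    rw [pow_succ, mul_assoc]
    exact mul_le_mul_of_nonneg_left h2 (by positivity)

theorem a4_pos (P : Par) (K : ℕ) : 0 < a4 P K := by
  unfold a4
  have : 0 < Real.log P.ρ := Real.log_pos P.hρ1
  positivity

theorem nonnil (P : Par) (K r : ℕ) (n : ℕ) (hn : 0 < n) (lam : Ix K r → ℝ)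
    (h0 : 0 < ‖Pc K r lam‖) (c : ℕ) :
    ((fun x : Ix K r → ℝ => x - (Le P K r ^ n) x)^[c]) lam ≠ 0 := by
  have key : 0 < ‖Pc K r (((fun x : Ix K r → ℝ => x - (Le P K r ^ n) x)^[c]) lam)‖ := by
    induction c with
    | zero => exact h0
    | succ c ih =>
      rw [Function.iterate_succ_apply']
      set x := ((fun x : Ix K r → ℝ => x - (Le P K r ^ n) x)^[c]) lam
      show 0 < ‖Pc K r (x - (Le P K r ^ n) x)‖
      rw [Pc_sub]
      have h1 := Pc_pow P K r n x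
      have h2 : 1 < Real.exp (a4 P K) ^ n :=
        one_lt_pow₀ (Real.one_lt_exp_iff.2 (a4_pos P K)) hn.ne'
      have h3 := norm_sub_norm_le (Pc K r ((Le P K r ^ n) x)) (Pc K r x)
      rw [norm_sub_rev] at h3
      nlinarith
  intro h
  rw [h] at key
  have : Pc K r 0 = 0 := by
    funext j
    apply Complex.ext <;> simp [Pc]
  rw [this, norm_zero] at key
  exact lt_irrefl _ key

theorem lam_pos (P : Par) (K r : ℕ) (s : ℝ) (hs : 0 < s) :
    0 < ‖Pc K r (lat P K r s (Sum.elim (fun p => if p.2 = 0 then 1 else 0) (fun _ => 0)))‖ := by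
  refine lt_of_lt_of_le ?_ (norm_le_pi_norm _ (0 : Fin (K + 1)))
  refine lt_of_lt_of_le ?_ (Complex.abs_re_le_norm _)
  refine abs_pos.2 ?_
  show s * (E (a4 P K * ((0 : Fin (K + 1)) : ℕ)) 0 * ph P (blk K r 0 (cs K r
    (Sum.elim (fun p => if p.2 = 0 then 1 else 0) (fun _ => 0)))) 0) ≠ 0
  have : ph P (blk K r 0 (cs K r
    (Sum.elim (fun p => if p.2 = 0 then 1 else 0) (fun _ => 0)))) 0 = 1 := by
    simp [ph, blk, cs, LinearMap.funLeft]
  rw [this, mul_one]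
  exact mul_ne_zero hs.ne' (E_pos _ _).ne'

end Pool.Agent.Y936.AF4
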