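import Pool.Agent.Y936.AF4.Dat
import Pool.Agent.H610R2.AF.T_MET
import Pool.Agent.H610R2.AF.T_CHR
import Pool.Agent.H610R2.AF.T_RIE
import Pool.Agent.H610R2.AF.T_GRAM
import Pool.Agent.H610R2.AF.T_CUR
import Pool.Agent.H610R2.AF.T_GRP
import Pool.Agent.H610R2.AF.T_ISOM
import Pool.Agent.H610R2.AF.T_FRE
import Pool.Agent.H610R2.AF.T_PRO
import Pool.Agent.H610R2.AF.T_COC
import Pool.Agent.H610R2.AF.T_SEG
import Pool.Agent.H610R2.AF.T_DIA
import Pool.Agent.H610R2.AF.T_NVN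

set_option autoImplicit false

namespace Pool.Agent.Y936.AF4

open H610AF

theorem dat (P : Par) (K r : ℕ) (η : ℝ) (hη : 0 < η) :
    ∃ (L : (Ix K r → ℝ) ≃ₗ[ℝ] (Ix K r → ℝ)) (δ : ℝ) (Λ : AddSubgroup (Ix K r → ℝ)),
      0 < δ ∧ δ < η ∧ Data (wt4 K r) L (a4 P K) δ Λ ∧
      ∀ n : ℕ, 0 < n → ∃ lam ∈ Λ, ∀ c : ℕ,
        ((fun x : Ix K r → ℝ => x - (L ^ n) x)^[c]) lam ≠ 0 := by
  obtain ⟨F, hF⟩ : ∃ F : (Ix K r → ℝ) →L[ℝ] (Ix K r → ℝ), ∀ x, F x = Ph P K r x :=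
    ⟨LinearMap.toContinuousLinearMap (Ph P K r), fun _ => rfl⟩
  obtain ⟨G, hG⟩ : ∃ G : (Ix K r → ℝ) →L[ℝ] (Ix K r → ℝ), ∀ x, G x = (Pe P K r).symm x :=
    ⟨LinearMap.toContinuousLinearMap
      ((Pe P K r).symm : (Ix K r → ℝ) →ₗ[ℝ] (Ix K r → ℝ)), fun _ => rfl⟩
  have hC : 0 < ‖F‖ + 1 := by positivity
  obtain ⟨s, hs, hsη⟩ : ∃ s : ℝ, 0 < s ∧ (‖F‖ + 1) * s < η := by
    refine ⟨η / (2 * (‖F‖ + 1)), by positivity, ?_⟩
    have : (‖F‖ + 1) * (η / (2 * (‖F‖ + 1))) = η / 2 := by field_simp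
    rw [this]
    linarith
  refine ⟨Le P K r, (‖F‖ + 1) * s, (lat P K r s).range, by positivity, hsη, ?_, ?_⟩
  · refine ⟨?_, a4_pos P K, ?_, ?_, ?_, ?_⟩
    · rintro (⟨j, i⟩ | i)
      · fin_cases i <;> simp [wt4, w0]
      · simp [wt4]
    · intro x
      constructor
      · rintro ⟨v, hv⟩
        obtain ⟨u, hu⟩ := Az_surj K r v
        refine ⟨u, ?_⟩
        apply (Le P K r).injective
        rw [← hv]
        show Lm P K r (s • Ph P K r (cs K r u)) = s • Ph P K r (cs K r v)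
        rw [map_smul, ← com, Az_cast, hu]
      · rintro ⟨v, hv⟩
        refine ⟨Az K r v, ?_⟩
        rw [← hv]
        show s • Ph P K r (cs K r (Az K r v)) = Lm P K r (s • Ph P K r (cs K r v))
        rw [map_smul, ← com, Az_cast]
    · intro R
      refine ((Set.finite_Icc (fun _ : Ix K r => -⌈‖G‖ * (s⁻¹ * |R|)⌉)
        (fun _ => ⌈‖G‖ * (s⁻¹ * |R|)⌉)).image (lat P K r s)).subset ?_
      rintro x ⟨⟨v, hv⟩, hx2⟩
      refine ⟨v, ?_, hv⟩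
      have h1 : cs K r v = G (s⁻¹ • x) := by
        rw [hG, ← hv]
        show cs K r v = (Pe P K r).symm (s⁻¹ • (s • Ph P K r (cs K r v)))
        rw [inv_smul_smul₀ hs.ne', ← Pe_apply, LinearEquiv.symm_apply_apply]
      have h2 : ‖cs K r v‖ ≤ ‖G‖ * (s⁻¹ * |R|) := by
        rw [h1]
        refine (G.le_opNorm _).trans ?_
        rw [norm_smul, norm_inv, Real.norm_of_nonneg hs.le]
        have := hx2.trans (le_abs_self R)
        gcongr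
      have h3 : ∀ i, |(v i : ℝ)| ≤ ‖G‖ * (s⁻¹ * |R|) := fun i =>
        (norm_le_pi_norm (cs K r v) i).trans h2
      have h4 := Int.le_ceil (‖G‖ * (s⁻¹ * |R|))
      constructor
      · intro i
        have h5 := (abs_le.1 (h3 i)).1
        have h6 : -((⌈‖G‖ * (s⁻¹ * |R|)⌉ : ℤ) : ℝ) ≤ ((v i : ℤ) : ℝ) := by linarith
        show -⌈‖G‖ * (s⁻¹ * |R|)⌉ ≤ v i
        exact_mod_cast h6
      · intro i
        have h5 := (abs_le.1 (h3 i)).2
        have h6 : ((v i : ℤ) : ℝ) ≤ ((⌈‖G‖ * (s⁻¹ * |R|)⌉ : ℤ) : ℝ) := by linarith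
        show v i ≤ ⌈‖G‖ * (s⁻¹ * |R|)⌉
        exact_mod_cast h6
    · intro x
      set y := G (s⁻¹ • x) with hy
      refine ⟨lat P K r s (fun i => -⌊y i⌋), ⟨_, rfl⟩, ?_⟩
      have hx : s • Ph P K r y = x := by
        rw [hy, hG, ← Pe_apply, LinearEquiv.apply_symm_apply, smul_inv_smul₀ hs.ne']
      have h1 : x + lat P K r s (fun i => -⌊y i⌋) = s • F (fun i => Int.fract (y i)) := by
        rw [hF]
        conv_lhs => rw [← hx]
        show s • Ph P K r y + s • Ph P K r (cs K r (fun i => -⌊y i⌋)) = _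
        rw [← smul_add, ← map_add]
        congr 2
        funext i
        simp only [cs, Pi.add_apply, Int.fract]
        push_cast
        ring
      rw [h1, norm_smul, Real.norm_of_nonneg hs.le]
      have h2 : ‖F (fun i => Int.fract (y i))‖ ≤ ‖F‖ * 1 := by
        refine (F.le_opNorm _).trans ?_
        refine mul_le_mul_of_nonneg_left ?_ (norm_nonneg _)
        refine (pi_norm_le_iff_of_nonneg zero_le_one).2 fun i => ?_
        rw [Real.norm_of_nonneg (Int.fract_nonneg _)]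
        exact (Int.fract_lt_one _).le
      nlinarith
    · intro z u v
      exact iso P K r z u v
  · intro n hn
    exact ⟨_, ⟨_, rfl⟩, nonnil P K r n hn _ (lam_pos P K r s hs)⟩

theorem exists_par : ∃ P : Par, Real.log P.ρ ≤ Real.log 2 / 4 := by
  have hq : (√2 : ℝ) ^ 2 = 2 := Real.sq_sqrt (by norm_num)
  have hq0 : (0 : ℝ) < √2 := by positivity
  have hq43 : (4 / 3 : ℝ) ≤ √2 := Real.le_sqrt_of_sq_le (by norm_num)
  have hcont : ContinuousOn (fun B : ℝ => (B + B⁻¹) * (B - B⁻¹) ^ 2) (Set.Icc 1 (√2)) := by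
    have hinv : ContinuousOn (fun B : ℝ => B⁻¹) (Set.Icc 1 (√2)) :=
      continuousOn_id.inv₀ fun x hx => by
        have := hx.1
        show x ≠ 0
        linarith
    exact (continuousOn_id.add hinv).mul ((continuousOn_id.sub hinv).pow 2)
  have hivt := intermediate_value_Icc (by linarith : (1 : ℝ) ≤ √2) hcont
  have hinvq : (√2 : ℝ)⁻¹ = √2 / 2 := by
    field_simp
    linarith
  obtain ⟨B, ⟨hB1, hB2⟩, hfB⟩ : (1 : ℝ) ∈
      (fun B : ℝ => (B + B⁻¹) * (B - B⁻¹) ^ 2) '' Set.Icc 1 (√2) := by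
    apply hivt
    constructor
    · norm_num
    · show (1 : ℝ) ≤ (√2 + (√2)⁻¹) * (√2 - (√2)⁻¹) ^ 2
      rw [hinvq]
      have : (√2 + √2 / 2) * (√2 - √2 / 2) ^ 2 = 3 / 4 * √2 := by
        linear_combination (3 / 8 * √2) * hq
      rw [this]
      linarith
  have hfB' : (B + B⁻¹) * (B - B⁻¹) ^ 2 = 1 := hfB
  have hBne : B ≠ 1 := by
    intro h
    rw [h] at hfB'
    norm_num at hfB'
  have hB1' : 1 < B := lt_of_le_of_ne hB1 (Ne.symm hBne)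
  have hB0 : 0 < B := by linarith
  have hBb : B * B⁻¹ = 1 := mul_inv_cancel₀ hB0.ne'
  have hb0 : 0 < B⁻¹ := by positivity
  have hb1 : B⁻¹ < 1 := inv_lt_one_of_one_lt₀ hB1'
  have hBsq : B ^ 2 ≤ 2 := by
    rw [← hq]
    exact pow_le_pow_left₀ hB0.le hB2 2
  have ht2 : (√(B + B⁻¹)) ^ 2 = B + B⁻¹ := Real.sq_sqrt (by positivity)
  have hpos : 0 ≤ √(B + B⁻¹) * (B - B⁻¹) := mul_nonneg (Real.sqrt_nonneg _) (by linarith)
  have h1 : √(B + B⁻¹) * (B - B⁻¹) = 1 := by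
    have : (√(B + B⁻¹) * (B - B⁻¹)) ^ 2 = 1 ^ 2 := by
      rw [mul_pow, ht2, hfB']
      norm_num
    exact (sq_eq_sq₀ hpos (by norm_num)).1 this
  have hy : 0 < B - (√(B + B⁻¹)) ^ 2 / 4 := by
    rw [ht2]
    linarith
  have hu : 0 < B⁻¹ - (√(B + B⁻¹)) ^ 2 / 4 := by
    rw [ht2]
    have h3 : B * (3 * B⁻¹ - B) = 3 - B ^ 2 := by linear_combination 3 * hBb
    have h4 : 0 < B * (3 * B⁻¹ - B) := by rw [h3]; linarith
    have h5 := (mul_pos_iff_of_pos_left hB0).1 h4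
    linarith
  refine ⟨⟨B, B⁻¹, √(B + B⁻¹), √(B - (√(B + B⁻¹)) ^ 2 / 4), √(B⁻¹ - (√(B + B⁻¹)) ^ 2 / 4), √B,
    hBb, ht2, h1, Real.sq_sqrt hy.le, Real.sq_sqrt hu.le, (Real.sqrt_pos.2 hy).ne',
    (Real.sqrt_pos.2 hu).ne', Real.sq_sqrt hB0.le, ?_, hBsq⟩, ?_⟩
  · rw [show (1 : ℝ) = √1 by rw [Real.sqrt_one]]
    exact Real.sqrt_lt_sqrt (by norm_num) hB1'
  · show Real.log (√B) ≤ Real.log 2 / 4
    rw [Real.log_sqrt hB0.le]
    have h2 : Real.log B ≤ Real.log (√2) := Real.log_le_log hB0 hB2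
    rw [Real.log_sqrt (by norm_num)] at h2
    linarith

theorem asm4 (d : ℕ) (hd : 5 ≤ d) (D : ℝ) (hD : Real.log 2 / (8 * ((d - 1) / 4 : ℕ)) < D) :
    ∃ (E : Type) (_ : NormedAddCommGroup E) (_ : NormedSpace ℝ E) (_ : FiniteDimensional ℝ E),
      Module.finrank ℝ E = d ∧ ∃ (g : RMetric E) (Γ : Subgroup (Equiv.Perm E)),
        CurvBound g ∧ IsCompactForm g Γ ∧ DiamLT g Γ D ∧ ¬ VirtuallyNilpotent Γ := by
  obtain ⟨P, hP⟩ := exists_par
  obtain ⟨K, hK⟩ : ∃ K : ℕ, (d - 1) / 4 = K + 1 := ⟨(d - 1) / 4 - 1, by omega⟩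
  obtain ⟨r, hr⟩ : ∃ r : ℕ, d = 4 * (K + 1) + r + 1 := ⟨d - 1 - 4 * (K + 1), by omega⟩
  have ha : a4 P K / 2 < D := by
    refine lt_of_le_of_lt ?_ hD
    rw [hK, a4, div_div]
    push_cast
    have hK0 : (0 : ℝ) < (K : ℝ) + 1 := by positivity
    rw [div_le_div_iff₀ (by positivity) (by positivity)]
    nlinarith
  set M : ℝ := Real.exp (2 * a4 P K) * (Fintype.card (Ix K r)) with hM
  have hM0 : 0 ≤ M := by positivity
  obtain ⟨L, δ, Λ, hδ0, hδ, hdat, hnon⟩ := dat P K r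
    ((D - a4 P K / 2) / (M + 1)) (by apply div_pos (by linarith) (by linarith))
  obtain ⟨g, hg⟩ := t_MET (Ix K r) (wt4 K r)
  obtain ⟨Γ, hΓ, -⟩ := t_GRP (Ix K r) (wt4 K r) L (a4 P K) δ Λ hdat
  have hmem : ∀ γ, γ ∈ Γ ↔ γ ∈ grpSet L (a4 P K) Λ := by
    intro γ
    rw [← hΓ]; rfl
  refine ⟨(Ix K r → ℝ) × ℝ, inferInstance, inferInstance, inferInstance, ?_, g, Γ, ?_, ?_, ?_, ?_⟩
  · rw [Module.finrank_prod, Module.finrank_fintype_fun_eq_card, Module.finrank_self, hr]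
    simp only [Ix, Fintype.card_sum, Fintype.card_prod, Fintype.card_fin]
    omega
  · exact t_CUR t_CHR t_RIE t_GRAM (Ix K r) (wt4 K r) hdat.w1 g hg
  · obtain ⟨-, hiso⟩ := t_ISOM (Ix K r) (wt4 K r) L (a4 P K) δ Λ hdat g hg
    refine ⟨fun γ hγ => hiso γ ((hmem γ).1 hγ),
      fun γ hγ => t_FRE (Ix K r) (wt4 K r) L (a4 P K) δ Λ hdat γ ((hmem γ).1 hγ), ?_, ?_⟩
    · intro S hS
      have := t_PRO (Ix K r) (wt4 K r) L (a4 P K) δ Λ hdat S hS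
      convert this using 4
      exact hmem _
    · obtain ⟨S, hS, h⟩ := t_COC (Ix K r) (wt4 K r) L (a4 P K) δ Λ hdat
      refine ⟨S, hS, fun x => ?_⟩
      obtain ⟨m, lam, hlam, hx⟩ := h x
      obtain ⟨Γ', hΓ', h'⟩ := t_GRP (Ix K r) (wt4 K r) L (a4 P K) δ Λ hdat
      obtain ⟨γ, hγ, hγ'⟩ := h' m lam hlam
      refine ⟨γ, ?_, ?_⟩
      · rw [hmem, ← hΓ']; exact hγ
      · rw [hγ' x]; exact hx
  · refine t_DIA t_SEG t_ISOM t_GRP (Ix K r) (wt4 K r) L (a4 P K) δ Λ hdat g hg Γ hΓ D ?_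
    rw [← hM]
    have h1 : M * δ ≤ (M + 1) * δ := by nlinarith
    have h2 : (M + 1) * δ < D - a4 P K / 2 := by
      rw [lt_div_iff₀ (by linarith)] at hδ
      linarith
    linarith
  · exact t_NVN (Ix K r) (wt4 K r) L (a4 P K) δ Λ hdat Γ hΓ hnon

end Pool.Agent.Y936.AF4
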