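import Pool.Agent.Y936.AF4.Blk

set_option autoImplicit false

namespace Pool.Agent.Y936.AF4

open H610AF

/-- index set: `K + 1` blocks of size four and `r` neutral directions -/
abbrev Ix (K r : ℕ) : Type := (Fin (K + 1) × Fin 4) ⊕ Fin r

/-- the weights -/
noncomputable def wt4 (K r : ℕ) : Ix K r → ℝ := Sum.elim (fun p => w0 p.2) (fun _ => 0)

/-- the translation length -/
noncomputable def a4 (P : Par) (K : ℕ) : ℝ := Real.log P.ρ / (K + 1)

/-- scaling factors -/
noncomputable def E (s : ℝ) (i : Fin 4) : ℝ := Real.exp (-(w0 i * s))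

/-- the `j`-th block of a vector -/
def blk (K r : ℕ) (j : Fin (K + 1)) : (Ix K r → ℝ) →ₗ[ℝ] (Fin 4 → ℝ) :=
  LinearMap.funLeft ℝ ℝ (fun i => Sum.inl (j, i))

/-- cyclic shift of the blocks -/
def sh (K r : ℕ) (G : Fin (K + 1) → ((Fin 4 → ℝ) →ₗ[ℝ] (Fin 4 → ℝ))) :
    (Ix K r → ℝ) →ₗ[ℝ] (Ix K r → ℝ) :=
  LinearMap.pi (Sum.elim (fun p => (LinearMap.proj p.2) ∘ₗ (G p.1) ∘ₗ blk K r (p.1 - 1))
    (fun i => LinearMap.proj (Sum.inr i)))

/-- the integral monodromy -/
def Am (K r : ℕ) : (Ix K r → ℝ) →ₗ[ℝ] (Ix K r → ℝ) :=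
  sh K r (fun j => if j = 0 then Cm else LinearMap.id)

/-- scaled rotations -/
noncomputable def Gr (P : Par) (K : ℕ) (j : Fin (K + 1)) : (Fin 4 → ℝ) →ₗ[ℝ] (Fin 4 → ℝ) :=
  LinearMap.pi (fun i => E (a4 P K) i •
    (LinearMap.proj i ∘ₗ (if j = 0 then Rm P else LinearMap.id)))

/-- the monodromy in metric coordinates -/
noncomputable def Lm (P : Par) (K r : ℕ) : (Ix K r → ℝ) →ₗ[ℝ] (Ix K r → ℝ) := sh K r (Gr P K)

/-- the embedding of the integral coordinates -/
noncomputable def Ph (P : Par) (K r : ℕ) : (Ix K r → ℝ) →ₗ[ℝ] (Ix K r → ℝ) :=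
  LinearMap.pi (Sum.elim (fun p => E (a4 P K * (p.1 : ℕ)) p.2 •
    (LinearMap.proj p.2 ∘ₗ ph P ∘ₗ blk K r p.1)) (fun i => LinearMap.proj (Sum.inr i)))

theorem E_add (s t : ℝ) (i : Fin 4) : E (s + t) i = E s i * E t i := by
  unfold E
  rw [← Real.exp_add]
  congr 1
  ring

theorem E_pos (s : ℝ) (i : Fin 4) : 0 < E s i := Real.exp_pos _

theorem Rm_E (P : Par) (s : ℝ) (X : Fin 4 → ℝ) (i : Fin 4) :
    Rm P (fun i' => E s i' * X i') i = E s i * Rm P X i := by
  fin_cases i <;> simp [Rm, E, w0] <;> ring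

theorem E_log (P : Par) (i : Fin 4) :
    (if i = 0 ∨ i = 1 then P.ρ else P.ρ⁻¹) = E (Real.log P.ρ) i := by
  have h : 0 < P.ρ := by have := P.hρ1; linarith
  fin_cases i <;> simp [E, w0, Real.exp_log h, Real.exp_neg]

theorem com (P : Par) (K r : ℕ) (v : Ix K r → ℝ) :
    Ph P K r (Am K r v) = Lm P K r (Ph P K r v) := by
  funext x
  rcases x with ⟨j, i⟩ | i
  · by_cases hj : j = 0
    · subst hj
      have h1 : Ph P K r (Am K r v) (Sum.inl (0, i)) =
          E (a4 P K * ((0 : Fin (K + 1)) : ℕ)) i * ph P (Cm (blk K r (0 - 1) v)) i := by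
        show E (a4 P K * ((0 : Fin (K + 1)) : ℕ)) i * ph P (blk K r 0 (Am K r v)) i = _
        have : blk K r 0 (Am K r v) = Cm (blk K r (0 - 1) v) := by
          funext i'
          show ((if (0 : Fin (K + 1)) = 0 then Cm else LinearMap.id) (blk K r (0 - 1) v)) i' = _
          rw [if_pos rfl]
        rw [this]
      have h2 : Lm P K r (Ph P K r v) (Sum.inl (0, i)) =
          E (a4 P K) i * Rm P (fun i' => E (a4 P K * (((0 - 1 : Fin (K + 1)) : ℕ) : ℝ)) i' *
            ph P (blk K r (0 - 1) v) i') i := by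
        show E (a4 P K) i * ((if (0 : Fin (K + 1)) = 0 then Rm P else LinearMap.id)
          (blk K r (0 - 1) (Ph P K r v))) i = _
        rw [if_pos rfl]
        rfl
      rw [h1, h2, Rm_E, ph_C, E_log, com_last, ← mul_assoc, ← mul_assoc, ← E_add, ← E_add]
      congr 2
      have hK : (K : ℝ) + 1 ≠ 0 := by positivity
      simp only [Fin.val_zero, Nat.cast_zero, mul_zero, zero_add]
      unfold a4
      field_simp
      ring
    · have h1 : Ph P K r (Am K r v) (Sum.inl (j, i)) =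
          E (a4 P K * (j : ℕ)) i * ph P (blk K r (j - 1) v) i := by
        show E (a4 P K * (j : ℕ)) i * ph P (blk K r j (Am K r v)) i = _
        have : blk K r j (Am K r v) = blk K r (j - 1) v := by
          funext i'
          show ((if j = 0 then Cm else LinearMap.id) (blk K r (j - 1) v)) i' = _
          rw [if_neg hj]
          rfl
        rw [this]
      have h2 : Lm P K r (Ph P K r v) (Sum.inl (j, i)) =
          E (a4 P K) i * (E (a4 P K * (((j - 1 : Fin (K + 1)) : ℕ) : ℝ)) i *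
            ph P (blk K r (j - 1) v) i) := by
        show E (a4 P K) i * ((if j = 0 then Rm P else LinearMap.id)
          (blk K r (j - 1) (Ph P K r v))) i = _
        rw [if_neg hj]
        rfl
      rw [h1, h2, ← com_val K j hj, ← mul_assoc, ← E_add]
      congr 2
      ring
  · rfl

theorem E_iso (a z : ℝ) (X Y : Fin 4 → ℝ) :
    ∑ i, Real.exp (2 * w0 i * (z + a)) * ((E a i * X i) * (E a i * Y i)) =
      ∑ i, Real.exp (2 * w0 i * z) * (X i * Y i) := by
  refine Finset.sum_congr rfl fun i _ => ?_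
  have : Real.exp (2 * w0 i * (z + a)) * (E a i * E a i) = Real.exp (2 * w0 i * z) := by
    unfold E
    rw [← Real.exp_add, ← Real.exp_add]
    congr 1
    ring
  rw [← this]
  ring

theorem iso (P : Par) (K r : ℕ) (z : ℝ) (U V : Ix K r → ℝ) :
    ∑ i, Real.exp (2 * wt4 K r i * (z + a4 P K)) * (Lm P K r U i * Lm P K r V i) =
      ∑ i, Real.exp (2 * wt4 K r i * z) * (U i * V i) := by
  rw [Fintype.sum_sum_type, Fintype.sum_sum_type]
  congr 1
  · rw [Fintype.sum_prod_type, Fintype.sum_prod_type]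
    rw [← isl_shift K (fun j => ∑ i, Real.exp (2 * wt4 K r (Sum.inl (j, i)) * z) *
      (U (Sum.inl (j, i)) * V (Sum.inl (j, i))))]
    refine Finset.sum_congr rfl fun j _ => ?_
    have h := E_iso (a4 P K) z ((if j = 0 then Rm P else LinearMap.id) (blk K r (j - 1) U))
      ((if j = 0 then Rm P else LinearMap.id) (blk K r (j - 1) V))
    refine Eq.trans h ?_
    by_cases hj : j = 0
    · rw [if_pos hj, Rm_iso]
      rfl
    · rw [if_neg hj]
      rfl
  · refine Finset.sum_congr rfl fun j _ => ?_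
    simp [wt4]
    rfl

theorem Am_inj (K r : ℕ) (v : Ix K r → ℝ) (h : Am K r v = 0) : v = 0 := by
  have hb : ∀ j, blk K r (j - 1) v = 0 := by
    intro j
    have e : ((if j = 0 then Cm else LinearMap.id) (blk K r (j - 1) v)) = 0 := by
      funext i
      exact congrFun h (Sum.inl (j, i))
    by_cases hj : j = 0
    · rw [if_pos hj] at e
      exact Cm_inj _ e
    · rw [if_neg hj] at e
      exact e
  funext x
  rcases x with ⟨j, i⟩ | i
  · have := congrFun (hb (j + 1)) i
    rw [add_sub_cancel_right] at this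
    exact this
  · exact congrFun h (Sum.inr i)

theorem Ph_inj (P : Par) (K r : ℕ) (v : Ix K r → ℝ) (h : Ph P K r v = 0) : v = 0 := by
  funext x
  rcases x with ⟨j, i⟩ | i
  · have e : ph P (blk K r j v) = 0 := by
      funext i'
      have e1 : E (a4 P K * (j : ℕ)) i' * ph P (blk K r j v) i' = 0 :=
        congrFun h (Sum.inl (j, i'))
      exact (mul_eq_zero.1 e1).resolve_left (E_pos _ _).ne'
    exact congrFun (ph_inj P _ e) i
  · exact congrFun h (Sum.inr i)

/-- the embedding as an equivalence -/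
noncomputable def Pe (P : Par) (K r : ℕ) : (Ix K r → ℝ) ≃ₗ[ℝ] (Ix K r → ℝ) :=
  LinearEquiv.ofInjectiveEndo (Ph P K r)
    ((injective_iff_map_eq_zero _).2 (Ph_inj P K r))

theorem Pe_apply (P : Par) (K r : ℕ) (v : Ix K r → ℝ) : Pe P K r v = Ph P K r v := rfl

theorem Lm_inj (P : Par) (K r : ℕ) (x : Ix K r → ℝ) (h : Lm P K r x = 0) : x = 0 := by
  have e : x = Ph P K r ((Pe P K r).symm x) := ((Pe P K r).apply_symm_apply x).symm
  rw [e, ← com] at h
  rw [e, Am_inj K r _ (Ph_inj P K r _ h), map_zero]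

/-- the monodromy as an equivalence -/
noncomputable def Le (P : Par) (K r : ℕ) : (Ix K r → ℝ) ≃ₗ[ℝ] (Ix K r → ℝ) :=
  LinearEquiv.ofInjectiveEndo (Lm P K r)
    ((injective_iff_map_eq_zero _).2 (Lm_inj P K r))

theorem Le_apply (P : Par) (K r : ℕ) (v : Ix K r → ℝ) : Le P K r v = Lm P K r v := rfl

end Pool.Agent.Y936.AF4
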